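import Pool.Agent.H83.UE.Targets3

/-!
# The row PIG: the zones cover
-/

set_option autoImplicit false

open Polynomial MeasureTheory Filter Topology Set
open scoped OnePoint ComplexConjugate ComplexOrder Laplacian ENNReal Nat

namespace Pool.Agent.H16.UDB

open Pool.Agent.H83.UE

theorem pig_aux {k : ℕ} (w : Fin k → ℝ) (a : ℕ → ℝ) (ha : Antitone a) :
    ∃ j : ℕ, j ≤ k ∧ ∀ l, ¬ (w l ≤ Real.exp (-(a j))) → Real.exp (-(a (j + 1))) ≤ w l := by
  by_contra hcon
  push Not at hcon
  have hex : ∀ j : Fin (k + 1), ∃ l : Fin k, Real.exp (-(a j)) < w l ∧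
      w l < Real.exp (-(a (j + 1))) := fun j => hcon j (Nat.lt_succ_iff.1 j.2)
  choose f hf1 hf2 using hex
  obtain ⟨i, j, hij, hfij⟩ := Fintype.exists_ne_map_eq_of_card_lt f (by simp)
  have key : ∀ i j : Fin (k + 1), i < j → f i = f j → False := by
    intro i j hij hfij
    have h1 : a j ≤ a (i + 1) := ha (Nat.succ_le_of_lt hij)
    have h2 : Real.exp (-(a (i + 1))) ≤ Real.exp (-(a j)) :=
      Real.exp_le_exp.2 (neg_le_neg h1)
    have h3 := hf2 i
    have h4 := hf1 j
    rw [hfij] at h3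
    linarith
  rcases lt_or_gt_of_ne hij with h | h
  · exact key i j h hfij
  · exact key j i h hfij.symm

theorem pf_PIG : T_PIG := by
  intro k E T ε η hT hε hη hη1 z
  have ha : Antitone fun j : ℕ => ε * η ^ j * T := by
    intro i j hij
    have h1 : η ^ j ≤ η ^ i := pow_le_pow_of_le_one hη.le hη1.le hij
    have h2 : ε * η ^ j ≤ ε * η ^ i := mul_le_mul_of_nonneg_left h1 hε.le
    exact mul_le_mul_of_nonneg_right h2 hT.le
  obtain ⟨j, hj, h⟩ := pig_aux (fun l => om (E l) (z l)) _ ha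
  classical
  refine ⟨j, hj, Finset.univ.filter fun l => om (E l) (z l) ≤ Real.exp (-(ε * η ^ j * T)),
    fun l hl => (Finset.mem_filter.1 hl).2, fun l hl => ?_⟩
  have h1 := h l fun h2 => hl (Finset.mem_filter.2 ⟨Finset.mem_univ _, h2⟩)
  have h2 : ε * η ^ (j + 1) * T = η * (ε * η ^ j * T) := by ring
  rw [h2] at h1
  exact h1

end Pool.Agent.H16.UDB
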